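import Mathlib
import Pool.Agent.Results.MP_0ff3a5_nt.LineTwo

set_option autoImplicit false

open Filter Topology

namespace Pool.Agent.Y509.FL

open Pool.Agent.Results.MP_0ff3a5_nt.LineTwo (seqSet Complete)

/-- `m` is a sum of distinct values among `⌊t α^0⌋, …, ⌊t α^n⌋` -/
def IsSum (t α : ℝ) (n : ℕ) (m : ℤ) : Prop :=
  ∃ F : Finset ℤ, (∀ a ∈ F, ∃ k ≤ n, a = ⌊t * α ^ k⌋) ∧ ∑ a ∈ F, a = m

variable {t α : ℝ}

lemma a_nonneg (ht : 0 < t) (hα : 1 < α) (n : ℕ) : 0 ≤ ⌊t * α ^ n⌋ :=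
  Int.floor_nonneg.2 (by positivity)

lemma a_mono (ht : 0 < t) (hα : 1 < α) : Monotone fun n : ℕ => ⌊t * α ^ n⌋ := by
  intro m n h
  apply Int.floor_le_floor
  exact mul_le_mul_of_nonneg_left (pow_le_pow_right₀ hα.le h) ht.le

lemma a_succ_lt (hα : 1 < α) (n : ℕ) :
    ((⌊t * α ^ (n + 1)⌋ : ℤ) : ℝ) < α * ((⌊t * α ^ n⌋ : ℤ) + 1) := by
  have h1 := Int.floor_le (t * α ^ (n + 1))
  have h2 := Int.lt_floor_add_one (t * α ^ n)
  have e : t * α ^ (n + 1) = α * (t * α ^ n) := by ring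
  have h3 : α * (t * α ^ n) < α * ((⌊t * α ^ n⌋ : ℤ) + 1) :=
    mul_lt_mul_of_pos_left h2 (by linarith)
  linarith

lemma a_succ_gt (hα : 1 < α) (n : ℕ) :
    α * ((⌊t * α ^ n⌋ : ℤ) : ℝ) - 1 < ((⌊t * α ^ (n + 1)⌋ : ℤ) : ℝ) := by
  have h1 := Int.lt_floor_add_one (t * α ^ (n + 1))
  have h2 := Int.floor_le (t * α ^ n)
  have e : t * α ^ (n + 1) = α * (t * α ^ n) := by ring
  have h3 : α * ((⌊t * α ^ n⌋ : ℤ) : ℝ) ≤ α * (t * α ^ n) :=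
    mul_le_mul_of_nonneg_left h2 (by linarith)
  linarith

lemma a_large (ht : 0 < t) (hα : 1 < α) (K : ℝ) : ∃ n : ℕ, ∀ k, n ≤ k →
    K ≤ ((⌊t * α ^ k⌋ : ℤ) : ℝ) := by
  obtain ⟨n, hn⟩ := pow_unbounded_of_one_lt ((K + 1) / t) hα
  refine ⟨n, fun k hk => ?_⟩
  rw [div_lt_iff₀ ht] at hn
  have h1 := Int.lt_floor_add_one (t * α ^ k)
  have h2 : α ^ n ≤ α ^ k := pow_le_pow_right₀ hα.le hk
  have h3 : t * α ^ n ≤ t * α ^ k := mul_le_mul_of_nonneg_left h2 ht.le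
  linarith

lemma isSum_mono {n n' : ℕ} (h : n ≤ n') {m : ℤ} (hm : IsSum t α n m) : IsSum t α n' m := by
  obtain ⟨F, hF, hs⟩ := hm
  exact ⟨F, fun a ha => (hF a ha).imp fun k hk => ⟨hk.1.trans h, hk.2⟩, hs⟩

/-- adding a new largest value -/
lemma isSum_add (ht : 0 < t) (hα : 1 < α) {n : ℕ} (hlt : ⌊t * α ^ n⌋ < ⌊t * α ^ (n + 1)⌋) {m : ℤ}
    (hm : IsSum t α n m) : IsSum t α (n + 1) (m + ⌊t * α ^ (n + 1)⌋) := by
  obtain ⟨F, hF, hs⟩ := hm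
  have hnot : ⌊t * α ^ (n + 1)⌋ ∉ F := by
    intro hc
    obtain ⟨k, hk, hk2⟩ := hF _ hc
    have := a_mono ht hα hk
    simp only at this
    omega
  refine ⟨insert ⌊t * α ^ (n + 1)⌋ F, fun a ha => ?_, ?_⟩
  · rcases Finset.mem_insert.1 ha with rfl | ha
    · exact ⟨n + 1, le_rfl, rfl⟩
    · exact (hF a ha).imp fun k hk => ⟨hk.1.trans (Nat.le_succ n), hk.2⟩
  · rw [Finset.sum_insert hnot, hs, add_comm]

lemma isSum_subset {n : ℕ} {m : ℤ} (hm : IsSum t α n m) :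
    ∃ F : Finset ℤ, (F : Set ℤ) ⊆ seqSet t α ∧ ∑ a ∈ F, a = m := by
  obtain ⟨F, hF, hs⟩ := hm
  exact ⟨F, fun a ha => (hF a ha).imp fun k hk => hk.2, hs⟩

/-- in a representation of `m < a_{n+1}` only `a_0, …, a_n` occur -/
lemma isSum_of_lt (ht : 0 < t) (hα : 1 < α) {n : ℕ} {m : ℤ} (hlt : m < ⌊t * α ^ (n + 1)⌋)
    (hm : ∃ F : Finset ℤ, (F : Set ℤ) ⊆ seqSet t α ∧ ∑ a ∈ F, a = m) : IsSum t α n m := by
  obtain ⟨F, hF, hs⟩ := hm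
  refine ⟨F, fun a ha => ?_, hs⟩
  obtain ⟨k, hk⟩ := hF ha
  refine ⟨k, ?_, hk⟩
  have h1 : a ≤ m := by
    rw [← hs]
    exact Finset.single_le_sum (f := fun a => a) (fun b hb => by
      obtain ⟨j, hj⟩ := hF hb
      rw [hj]
      exact a_nonneg ht hα j) ha
  by_contra hc
  rw [not_le] at hc
  have := a_mono ht hα hc
  simp only [Nat.succ_eq_add_one] at this
  omega

/-- **Sufficiency.** -/
theorem complete_of (ht : 0 < t) (hα : 1 < α) {n : ℕ} {L : ℤ}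
    (hstep : ∀ k, n ≤ k → ⌊t * α ^ (k + 1)⌋ ≤ 2 * ⌊t * α ^ k⌋)
    (h : ∀ m, L ≤ m → m ≤ L + 2 * ⌊t * α ^ n⌋ - 1 → IsSum t α n m) :
    ∀ m ≥ L, ∃ F : Finset ℤ, (F : Set ℤ) ⊆ seqSet t α ∧ ∑ a ∈ F, a = m := by
  have key : ∀ j, ∀ m, L ≤ m → m ≤ L + 2 * ⌊t * α ^ (n + j)⌋ - 1 → IsSum t α (n + j) m := by
    intro j
    induction j with
    | zero => exact h
    | succ j ih =>
      intro m h1 h2
      have hs := hstep (n + j) (Nat.le_add_right _ _)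
      have hmo := a_mono ht hα (Nat.le_succ (n + j))
      simp only [Nat.succ_eq_add_one] at hmo
      rw [← add_assoc] at h2 ⊢
      by_cases hm : m ≤ L + 2 * ⌊t * α ^ (n + j)⌋ - 1
      · exact isSum_mono (Nat.le_succ _) (ih m h1 hm)
      · rcases hmo.lt_or_eq with hlt | heq
        · have h3 := isSum_add ht hα hlt (ih (m - ⌊t * α ^ (n + j + 1)⌋) (by omega) (by omega))
          rwa [sub_add_cancel] at h3
        · omega
  intro m hm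
  obtain ⟨k, hk⟩ := a_large ht hα (m - L + 1)
  have h1 := hk (n + k) (Nat.le_add_left _ _)
  have h2 : m - L + 1 ≤ ⌊t * α ^ (n + k)⌋ := by exact_mod_cast h1
  exact isSum_subset (key k m hm (by omega))

lemma step_of (ht : 0 < t) (hα : 1 < α) (hα2 : α < 2) {n : ℕ}
    (hn : α ≤ (2 - α) * (⌊t * α ^ n⌋ : ℤ)) (k : ℕ) (hk : n ≤ k) :
    ⌊t * α ^ (k + 1)⌋ ≤ 2 * ⌊t * α ^ k⌋ := by
  have h1 := a_succ_lt (t := t) hα k
  have h2 : ⌊t * α ^ n⌋ ≤ ⌊t * α ^ k⌋ := a_mono ht hα hk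
  have h3 : ((⌊t * α ^ n⌋ : ℤ) : ℝ) ≤ (⌊t * α ^ k⌋ : ℤ) := by exact_mod_cast h2
  have h4 : (2 - α) * ((⌊t * α ^ n⌋ : ℤ) : ℝ) ≤ (2 - α) * (⌊t * α ^ k⌋ : ℤ) :=
    mul_le_mul_of_nonneg_left h3 (by linarith)
  have h5 : ((⌊t * α ^ (k + 1)⌋ : ℤ) : ℝ) < 2 * (⌊t * α ^ k⌋ : ℤ) := by nlinarith
  have h6 : ⌊t * α ^ (k + 1)⌋ < 2 * ⌊t * α ^ k⌋ := by exact_mod_cast h5
  exact h6.le

/-- **Necessity.** -/
theorem cert_of_complete (ht : 0 < t) (hα : 1 < α) (hα2 : α < 2) (hc : Complete (seqSet t α)) :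
    ∃ (n : ℕ) (L : ℤ), α < (2 - α) * (⌊t * α ^ n⌋ : ℤ) ∧
      ∀ m, L ≤ m → m ≤ L + 2 * ⌊t * α ^ n⌋ → IsSum t α n m := by
  obtain ⟨N₀, hN₀⟩ := hc
  set N : ℤ := max N₀ 0 with hN
  have hN0 : 0 ≤ N := le_max_right _ _
  have hNr : (0 : ℝ) ≤ N := by exact_mod_cast hN0
  have hrep : ∀ m, N ≤ m → ∃ F : Finset ℤ, (F : Set ℤ) ⊆ seqSet t α ∧ ∑ a ∈ F, a = m :=
    fun m hm => hN₀ m ((le_max_left _ _).trans hm)
  obtain ⟨n₁, hn₁⟩ := a_large ht hα ((N + 1) / (α - 1))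
  obtain ⟨n₂, hn₂⟩ := a_large ht hα ((α + N) / (2 - α))
  set n := max n₁ n₂ with hn
  have h1 := hn₁ n (le_max_left _ _)
  have h2 := hn₂ n (le_max_right _ _)
  rw [div_le_iff₀ (by linarith)] at h1 h2
  have hgt := a_succ_gt (t := t) hα n
  have hlt := a_succ_lt (t := t) hα n
  -- the gap
  have hgapr : (N : ℝ) < (⌊t * α ^ (n + 1)⌋ : ℤ) - (⌊t * α ^ n⌋ : ℤ) := by nlinarith
  have hgap : N < ⌊t * α ^ (n + 1)⌋ - ⌊t * α ^ n⌋ := by exact_mod_cast hgapr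
  have hupr : ((⌊t * α ^ (n + 1)⌋ : ℤ) : ℝ) + N < 2 * (⌊t * α ^ n⌋ : ℤ) := by nlinarith
  have hup : ⌊t * α ^ (n + 1)⌋ + N < 2 * ⌊t * α ^ n⌋ := by exact_mod_cast hupr
  -- all integers of `[N, N + a_{n+1}]` are sums of `a_0, …, a_n`
  have hS : ∀ m, N ≤ m → m ≤ N + ⌊t * α ^ (n + 1)⌋ → IsSum t α n m := by
    intro m hm1 hm2
    by_cases hm3 : m < ⌊t * α ^ (n + 1)⌋
    · exact isSum_of_lt ht hα hm3 (hrep m hm1)
    · rw [not_lt] at hm3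
      obtain ⟨F, hF, hs⟩ := hrep (m - ⌊t * α ^ n⌋) (by omega)
      have hle : ∀ a ∈ F, a ≤ m - ⌊t * α ^ n⌋ := by
        intro a ha
        rw [← hs]
        exact Finset.single_le_sum (f := fun a => a) (fun b hb => by
          obtain ⟨j, hj⟩ := hF hb
          rw [hj]
          exact a_nonneg ht hα j) ha
      have hnot : ⌊t * α ^ n⌋ ∉ F := by
        intro hc
        have := hle _ hc
        omega
      refine ⟨insert ⌊t * α ^ n⌋ F, fun a ha => ?_, ?_⟩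
      · rcases Finset.mem_insert.1 ha with rfl | ha
        · exact ⟨n, le_rfl, rfl⟩
        · obtain ⟨k, hk⟩ := hF ha
          refine ⟨k, ?_, hk⟩
          by_contra hc
          rw [not_le] at hc
          have h3 := a_mono ht hα hc.le
          have h4 := hle a ha
          simp only at h3
          omega
      · rw [Finset.sum_insert hnot, hs]
        omega
  refine ⟨n + 1, N, ?_, fun m hm1 hm2 => ?_⟩
  · have h3 : ((⌊t * α ^ n⌋ : ℤ) : ℝ) < (⌊t * α ^ (n + 1)⌋ : ℤ) := by linarith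
    have h4 : (2 - α) * ((⌊t * α ^ n⌋ : ℤ) : ℝ) < (2 - α) * (⌊t * α ^ (n + 1)⌋ : ℤ) :=
      mul_lt_mul_of_pos_left h3 (by linarith)
    linarith
  · by_cases hm3 : m ≤ N + ⌊t * α ^ (n + 1)⌋
    · exact isSum_mono (Nat.le_succ n) (hS m hm1 hm3)
    · have h3 := isSum_add ht hα (by omega : ⌊t * α ^ n⌋ < ⌊t * α ^ (n + 1)⌋)
        (hS (m - ⌊t * α ^ (n + 1)⌋) (by omega) (by omega))
      rwa [sub_add_cancel] at h3

/-- **The finite criterion.** -/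
theorem complete_iff (ht : 0 < t) (hα : 1 < α) (hα2 : α < 2) :
    Complete (seqSet t α) ↔ ∃ (n : ℕ) (L : ℤ), α < (2 - α) * (⌊t * α ^ n⌋ : ℤ) ∧
      ∀ m, L ≤ m → m ≤ L + 2 * ⌊t * α ^ n⌋ → IsSum t α n m := by
  refine ⟨cert_of_complete ht hα hα2, ?_⟩
  rintro ⟨n, L, h1, h2⟩
  exact ⟨L, complete_of ht hα (step_of ht hα hα2 h1.le) fun m hm1 hm2 => h2 m hm1 (by omega)⟩

/-- **Goodness is open to the right.** -/
theorem right_open (ht : 0 < t) (hα : 1 < α) (hα2 : α < 2) (hc : Complete (seqSet t α)) :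
    ∃ ε : ℝ, 0 < ε ∧ ∀ t' α' : ℝ, t ≤ t' → t' < t + ε → α ≤ α' → α' < α + ε →
      α' < 2 ∧ Complete (seqSet t' α') := by
  obtain ⟨n, L, h1, h2⟩ := cert_of_complete ht hα hα2 hc
  have e1 : ∀ᶠ p : ℝ × ℝ in 𝓝 (t, α), ∀ k ∈ Finset.range (n + 1),
      p.1 * p.2 ^ k < (⌊t * α ^ k⌋ : ℤ) + 1 := by
    rw [Filter.eventually_all_finset]
    intro k _
    have hcont : Continuous fun p : ℝ × ℝ => p.1 * p.2 ^ k := by fun_prop
    exact (hcont.tendsto (t, α)).eventually_lt_const (Int.lt_floor_add_one _)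
  have e2 : ∀ᶠ p : ℝ × ℝ in 𝓝 (t, α), 0 < (2 - p.2) * ((⌊t * α ^ n⌋ : ℤ) : ℝ) - p.2 := by
    have hcont : Continuous fun p : ℝ × ℝ => (2 - p.2) * ((⌊t * α ^ n⌋ : ℤ) : ℝ) - p.2 := by
      fun_prop
    exact (hcont.tendsto (t, α)).eventually_const_lt (by simp only; linarith)
  have e3 : ∀ᶠ p : ℝ × ℝ in 𝓝 (t, α), p.2 < 2 :=
    (continuous_snd.tendsto (t, α)).eventually_lt_const hα2
  obtain ⟨ε, hε, hB⟩ := Metric.eventually_nhds_iff.1 (e1.and (e2.and e3))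
  refine ⟨ε, hε, fun t' α' ht1 ht2 hα1 hα3 => ?_⟩
  have hd : dist (t', α') (t, α) < ε := by
    rw [Prod.dist_eq, max_lt_iff, Real.dist_eq, Real.dist_eq]
    exact ⟨by rw [abs_of_nonneg (by linarith)]; linarith,
      by rw [abs_of_nonneg (by linarith)]; linarith⟩
  obtain ⟨f1, f2, f3⟩ := hB hd
  simp only at f1 f2 f3
  have ht' : 0 < t' := by linarith
  have hα' : 1 < α' := by linarith
  have hfl : ∀ k ≤ n, ⌊t' * α' ^ k⌋ = ⌊t * α ^ k⌋ := by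
    intro k hk
    rw [Int.floor_eq_iff]
    refine ⟨?_, f1 k (Finset.mem_range.2 (by omega))⟩
    refine (Int.floor_le _).trans ?_
    exact mul_le_mul ht1 (pow_le_pow_left₀ (by linarith) hα1 k) (by positivity) ht'.le
  refine ⟨f3, (complete_iff ht' hα' f3).2 ⟨n, L, ?_, fun m hm1 hm2 => ?_⟩⟩
  · rw [hfl n le_rfl]
    linarith
  · rw [hfl n le_rfl] at hm2
    obtain ⟨F, hF, hs⟩ := h2 m hm1 hm2
    refine ⟨F, fun a ha => ?_, hs⟩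
    obtain ⟨k, hk, rfl⟩ := hF a ha
    exact ⟨k, hk, (hfl k hk).symm⟩

end Pool.Agent.Y509.FL
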