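import Mathlib
import Pool.Agent.Y509.FL.Main

set_option autoImplicit false

open Filter Topology

namespace Pool.Agent.Y509.FL

open Pool.Agent.Results.MP_0ff3a5_nt.LineTwo (seqSet Complete)

variable {t α : ℝ}

/-- `0` and the last value are sums -/
lemma isSum_zero (n : ℕ) : IsSum t α n 0 := ⟨∅, by simp, by simp⟩

lemma isSum_last (n : ℕ) : IsSum t α n ⌊t * α ^ n⌋ :=
  ⟨{⌊t * α ^ n⌋}, by simpa using ⟨n, le_rfl, rfl⟩, by simp⟩

/-- Brown's criterion: if some value is `1` and from there on the values at most double, then all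
nonnegative integers are sums. -/
lemma complete_of_one (ht : 0 < t) (hα : 1 < α) {n : ℕ} (h1 : ⌊t * α ^ n⌋ = 1)
    (hstep : ∀ k, n ≤ k → ⌊t * α ^ (k + 1)⌋ ≤ 2 * ⌊t * α ^ k⌋) : Complete (seqSet t α) := by
  refine ⟨0, complete_of ht hα hstep fun m hm1 hm2 => ?_⟩
  rw [h1] at hm2
  have : m = 0 ∨ m = 1 := by omega
  rcases this with rfl | rfl
  · exact isSum_zero n
  · have := isSum_last (t := t) (α := α) n
    rwa [h1] at this

/-- **The rectangle `0 < t < 2`, `1 < α ≤ 3/2`.** -/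
theorem rectangle (ht : 0 < t) (ht2 : t < 2) (hα : 1 < α) (hα2 : α ≤ 3 / 2) :
    Complete (seqSet t α) := by
  classical
  have hex : ∃ n : ℕ, 1 ≤ ⌊t * α ^ n⌋ := by
    obtain ⟨n, hn⟩ := a_large ht hα 1
    exact ⟨n, by exact_mod_cast hn n le_rfl⟩
  set n := Nat.find hex with hn
  have hn1 : 1 ≤ ⌊t * α ^ n⌋ := Nat.find_spec hex
  have hone : ⌊t * α ^ n⌋ = 1 := by
    refine le_antisymm ?_ hn1
    rw [← Int.lt_add_one_iff, Int.floor_lt]
    rcases Nat.eq_zero_or_pos n with h0 | h0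
    · rw [h0]
      push_cast
      linarith
    · obtain ⟨k, hk⟩ : ∃ k, n = k + 1 := ⟨n - 1, by omega⟩
      have h2 : ¬ 1 ≤ ⌊t * α ^ k⌋ := Nat.find_min hex (by omega)
      rw [Int.le_floor] at h2
      push_cast at h2
      rw [hk, pow_succ]
      push_cast
      nlinarith
  refine complete_of_one ht hα hone fun k hk => ?_
  have h1 : 1 ≤ ⌊t * α ^ k⌋ := hn1.trans (a_mono ht hα hk)
  have h2 := a_succ_lt (t := t) hα k
  have h3 : (1 : ℝ) ≤ (⌊t * α ^ k⌋ : ℤ) := by exact_mod_cast h1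
  have h4 : 2 * ((⌊t * α ^ (k + 1)⌋ : ℤ) : ℝ) < 3 * ((⌊t * α ^ k⌋ : ℤ) + 1) := by nlinarith
  have h5 : 2 * ⌊t * α ^ (k + 1)⌋ < 3 * (⌊t * α ^ k⌋ + 1) := by exact_mod_cast h4
  omega

/-- **Ratios close to `1`.** -/
theorem near_one (ht : 0 < t) (hα : 1 < α) (h : (2 * t + 8) * (α - 1) ≤ 1) :
    Complete (seqSet t α) := by
  have hα2 : α < 2 := by nlinarith
  set k₀ : ℤ := ⌊t⌋ with hk₀
  have hk0 : 0 ≤ k₀ := Int.floor_nonneg.2 ht.le
  have hkt : (k₀ : ℝ) ≤ t := Int.floor_le t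
  -- consecutive values differ by at most one as long as they are at most `2 k₀ + 7`
  have hstep1 : ∀ n : ℕ, ⌊t * α ^ n⌋ ≤ 2 * k₀ + 7 → ⌊t * α ^ (n + 1)⌋ ≤ ⌊t * α ^ n⌋ + 1 := by
    intro n hn
    have h1 : ((⌊t * α ^ n⌋ : ℤ) : ℝ) ≤ 2 * k₀ + 7 := by exact_mod_cast hn
    have h2 := Int.lt_floor_add_one (t * α ^ n)
    have h3 : t * α ^ (n + 1) < (⌊t * α ^ n⌋ : ℤ) + 2 := by
      have e : t * α ^ (n + 1) = t * α ^ n + (α - 1) * (t * α ^ n) := by ring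
      have h4 : (α - 1) * (t * α ^ n) ≤ (α - 1) * (2 * t + 8) :=
        mul_le_mul_of_nonneg_left (by linarith) (by linarith)
      linarith
    have h5 : ⌊t * α ^ (n + 1)⌋ < ⌊t * α ^ n⌋ + 2 := by
      rw [Int.floor_lt]
      push_cast
      exact h3
    omega
  -- hence all integers from `k₀` to `2 k₀ + 8` are values
  have hval : ∀ j : ℕ, k₀ + j ≤ 2 * k₀ + 8 → ∃ n : ℕ, ⌊t * α ^ n⌋ = k₀ + j := by
    intro j
    induction j with
    | zero =>
      intro _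
      exact ⟨0, by simp [hk₀]⟩
    | succ j ih =>
      classical
      intro hj
      push_cast at hj
      obtain ⟨n₀, hn₀⟩ := ih (by omega)
      have hex : ∃ n : ℕ, k₀ + j + 1 ≤ ⌊t * α ^ n⌋ := by
        obtain ⟨n, hn⟩ := a_large ht hα ((k₀ + j + 1 : ℤ) : ℝ)
        exact ⟨n, by exact_mod_cast hn n le_rfl⟩
      set n := Nat.find hex with hn
      have h1 : k₀ + j + 1 ≤ ⌊t * α ^ n⌋ := Nat.find_spec hex
      have h0 : 0 < n := by
        by_contra hc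
        have : n = 0 := by omega
        rw [this, pow_zero, mul_one] at h1
        omega
      obtain ⟨k, hk⟩ : ∃ k, n = k + 1 := ⟨n - 1, by omega⟩
      have h2 : ¬ k₀ + j + 1 ≤ ⌊t * α ^ k⌋ := Nat.find_min hex (by omega)
      have h3 := hstep1 k (by omega)
      rw [hk] at h1
      refine ⟨k + 1, ?_⟩
      push_cast
      omega
  -- the last of them
  obtain ⟨n, hn⟩ := hval (k₀ + 8).toNat (by omega)
  have hn' : ⌊t * α ^ n⌋ = 2 * k₀ + 8 := by omega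
  have hmem : ∀ a : ℤ, k₀ ≤ a → a ≤ 2 * k₀ + 8 → ∃ k ≤ n, a = ⌊t * α ^ k⌋ := by
    intro a ha1 ha2
    obtain ⟨k, hk⟩ := hval (a - k₀).toNat (by omega)
    rcases le_or_gt k n with hkn | hkn
    · exact ⟨k, hkn, by omega⟩
    · have h1 := a_mono ht hα hkn.le
      simp only at h1
      exact ⟨n, le_rfl, by omega⟩
  -- two element sums
  have htwo : ∀ m, 2 * k₀ + 1 ≤ m → m ≤ 4 * k₀ + 15 → IsSum t α n m := by
    intro m hm1 hm2
    by_cases hm : m ≤ 3 * k₀ + 8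
    · have hne : k₀ ≠ m - k₀ := by omega
      refine ⟨{k₀, m - k₀}, fun a ha => ?_, ?_⟩
      · rw [Finset.mem_insert, Finset.mem_singleton] at ha
        rcases ha with rfl | rfl
        · exact hmem _ le_rfl (by omega)
        · exact hmem _ (by omega) (by omega)
      · rw [Finset.sum_pair hne]
        ring
    · have hne : 2 * k₀ + 8 ≠ m - (2 * k₀ + 8) := by omega
      refine ⟨{2 * k₀ + 8, m - (2 * k₀ + 8)}, fun a ha => ?_, ?_⟩
      · rw [Finset.mem_insert, Finset.mem_singleton] at ha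
        rcases ha with rfl | rfl
        · exact hmem _ (by omega) le_rfl
        · exact hmem _ (by omega) (by omega)
      · rw [Finset.sum_pair hne]
        ring
  -- the next value
  classical
  have hex : ∃ n : ℕ, 2 * k₀ + 9 ≤ ⌊t * α ^ n⌋ := by
    obtain ⟨n, hn⟩ := a_large ht hα ((2 * k₀ + 9 : ℤ) : ℝ)
    exact ⟨n, by exact_mod_cast hn n le_rfl⟩
  set n' := Nat.find hex with hn'def
  have h1 : 2 * k₀ + 9 ≤ ⌊t * α ^ n'⌋ := Nat.find_spec hex
  have hnn : n < n' := by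
    by_contra hc
    have := a_mono ht hα (not_lt.1 hc)
    simp only at this
    omega
  obtain ⟨k, hk⟩ : ∃ k, n' = k + 1 := ⟨n' - 1, by omega⟩
  have h2 : ¬ 2 * k₀ + 9 ≤ ⌊t * α ^ k⌋ := Nat.find_min hex (by omega)
  have h3 : ⌊t * α ^ n⌋ ≤ ⌊t * α ^ k⌋ := a_mono ht hα (by omega)
  have hak : ⌊t * α ^ k⌋ = 2 * k₀ + 8 := by omega
  rw [hk] at h1
  have hα8 : α - 1 ≤ 1 / 8 := by nlinarith
  have hk0r : (0 : ℝ) ≤ k₀ := by exact_mod_cast hk0
  have h4 : ⌊t * α ^ (k + 1)⌋ ≤ 2 * k₀ + 15 := by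
    have h5 := a_succ_lt (t := t) hα k
    rw [hak] at h5
    push_cast at h5
    have h6 : (α - 1) * (2 * k₀ + 9) ≤ (α - 1) * (2 * t + 8) + (α - 1) := by
      nlinarith
    have h7 : ((⌊t * α ^ (k + 1)⌋ : ℤ) : ℝ) < 2 * k₀ + 15 := by nlinarith
    have h8 : ⌊t * α ^ (k + 1)⌋ < 2 * k₀ + 15 := by exact_mod_cast h7
    omega
  have hstep : ∀ j, k + 1 ≤ j → ⌊t * α ^ (j + 1)⌋ ≤ 2 * ⌊t * α ^ j⌋ := by
    refine step_of ht hα hα2 ?_
    have h5 : ((2 * k₀ + 9 : ℤ) : ℝ) ≤ (⌊t * α ^ (k + 1)⌋ : ℤ) := by exact_mod_cast h1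
    push_cast at h5
    nlinarith
  refine ⟨2 * k₀ + 1, complete_of ht hα hstep fun m hm1 hm2 => ?_⟩
  by_cases hm : m ≤ 4 * k₀ + 15
  · exact isSum_mono (by omega) (htwo m hm1 hm)
  · have h5 := isSum_add ht hα (by omega : ⌊t * α ^ k⌋ < ⌊t * α ^ (k + 1)⌋)
      (isSum_mono (by omega : n ≤ k)
        (htwo (m - ⌊t * α ^ (k + 1)⌋) (by omega) (by omega)))
    rwa [sub_add_cancel] at h5

end Pool.Agent.Y509.FL
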