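import Mathlib
import Pool.Agent.Y509.FL.Reg

set_option autoImplicit false

open Filter Topology

namespace Pool.Agent.Y509.FL

open Pool.Agent.Results.MP_0ff3a5_nt.LineTwo (seqSet Complete)

/-- The set `G` of the problem: the pairs `(t, α)`, `t, α > 0`, for which `⌊t α^n⌋` is complete. -/
def G : Set (ℝ × ℝ) := {p | 0 < p.1 ∧ 0 < p.2 ∧ Complete (seqSet p.1 p.2)}

lemma mem_closure_of_lt {t α : ℝ} (ht : 0 < t) (hα : 1 < α) (hα2 : α < 2)
    (hc : Complete (seqSet t α)) : (t, α) ∈ closure (interior G) := by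
  obtain ⟨ε, hε, h⟩ := right_open ht hα hα2 hc
  rw [Metric.mem_closure_iff]
  intro r hr
  set δ := min ε r / 2 with hδ
  have hδ0 : 0 < δ := by
    have : 0 < min ε r := lt_min hε hr
    positivity
  have hδε : 2 * δ ≤ ε := by rw [hδ]; linarith [min_le_left ε r]
  have hδr : 2 * δ ≤ r := by rw [hδ]; linarith [min_le_right ε r]
  refine ⟨(t + δ, α + δ), ?_, ?_⟩
  · rw [mem_interior]
    refine ⟨Set.Ioo t (t + ε) ×ˢ Set.Ioo α (α + ε), fun p hp => ?_,
      isOpen_Ioo.prod isOpen_Ioo, ⟨⟨by simp only; linarith, by simp only; linarith⟩,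
        ⟨by simp only; linarith, by simp only; linarith⟩⟩⟩
    obtain ⟨h1, h2⟩ := hp
    exact ⟨by linarith [h1.1], by linarith [h2.1], (h p.1 p.2 h1.1.le h1.2 h2.1.le h2.2).2⟩
  · rw [Prod.dist_eq, max_lt_iff, Real.dist_eq, Real.dist_eq]
    constructor
    · rw [show t - (t + δ) = -δ by ring, abs_neg, abs_of_pos hδ0]; linarith
    · rw [show α - (α + δ) = -δ by ring, abs_neg, abs_of_pos hδ0]; linarith

lemma pow_bound {x : ℝ} (hx : 0 < x) (hx4 : x ≤ 1 / 4) (i : ℕ) (hi : (2 : ℝ) ^ i * x ≤ 1) :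
    (1 + 3 / 2 * x) ^ i < 1 + 2 ^ i * x := by
  have key : ∀ i : ℕ, (2 : ℝ) ^ (i + 2) * x ≤ 1 → (1 + 3 / 2 * x) ^ (i + 2) < 1 + 2 ^ (i + 2) * x := by
    intro i
    induction i with
    | zero =>
      intro _
      nlinarith
    | succ i ih =>
      intro h
      have e : (2 : ℝ) ^ (i + 1 + 2) = 2 * 2 ^ (i + 2) := by ring
      rw [e] at h ⊢
      have h1 : (4 : ℝ) ≤ 2 ^ (i + 2) := by
        have : (1 : ℝ) ≤ 2 ^ i := one_le_pow₀ (by norm_num)
        rw [pow_add]; linarith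
      have h2 := ih (by nlinarith)
      have h3 : (1 + 3 / 2 * x) ^ (i + 1 + 2) = (1 + 3 / 2 * x) ^ (i + 2) * (1 + 3 / 2 * x) := by
        ring
      rw [h3]
      have h4 : (1 + 3 / 2 * x) ^ (i + 2) * (1 + 3 / 2 * x) <
          (1 + 2 ^ (i + 2) * x) * (1 + 3 / 2 * x) :=
        mul_lt_mul_of_pos_right h2 (by linarith)
      have h5 : (2 : ℝ) ^ (i + 2) * x * x ≤ x := by nlinarith
      nlinarith
  match i, hi with
  | 0, _ => simpa using hx
  | 1, _ => simp only [pow_one]; linarith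
  | i + 2, hi => exact key i hi

/-- good points of the strip `α < 2` near the good points of the line `α = 2` -/
lemma near_two (k J : ℕ) (hJ : 2 ≤ J) (ρ α t : ℝ) (hρ : ρ = 1 + 3 / 2 * (1 / 2) ^ J)
    (hα : α = 2 / ρ) (ht : t = ρ ^ J / α ^ k) : 0 < t ∧ 1 < α ∧ α < 2 ∧ Complete (seqSet t α) := by
  set x : ℝ := (1 / 2) ^ J with hx
  have hx0 : 0 < x := by positivity
  have hx4 : x ≤ 1 / 4 := by
    calc x ≤ (1 / 2) ^ 2 := pow_le_pow_of_le_one (by norm_num) (by norm_num) hJ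
      _ = 1 / 4 := by norm_num
  have h2x : (2 : ℝ) ^ J * x = 1 := by rw [hx, ← mul_pow]; norm_num
  have hρ1 : 1 < ρ := by rw [hρ]; linarith
  have hρ2 : ρ < 2 := by rw [hρ]; linarith
  have hρ0 : 0 < ρ := by linarith
  have hα1 : 1 < α := by rw [hα, lt_div_iff₀ hρ0]; linarith
  have hα2 : α < 2 := by rw [hα, div_lt_iff₀ hρ0]; linarith
  have hα0 : 0 < α := by linarith
  have ht0 : 0 < t := by rw [ht]; positivity
  refine ⟨ht0, hα1, hα2, ?_⟩
  have hval : ∀ j, j ≤ J → ⌊t * α ^ (k + j)⌋ = 2 ^ j := by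
    intro j hj
    obtain ⟨i, rfl⟩ := Nat.exists_eq_add_of_le hj
    have e1 : t * α ^ (k + j) = 2 ^ j * ρ ^ i := by
      rw [ht, hα, pow_add, pow_add, div_pow 2 ρ j]
      field_simp
    rw [e1, Int.floor_eq_iff]
    have h1 : 1 ≤ ρ ^ i := one_le_pow₀ hρ1.le
    have h2j : (0 : ℝ) < 2 ^ j := by positivity
    have hixj : (2 : ℝ) ^ j * (2 ^ i * x) = 1 := by rw [← mul_assoc, ← pow_add]; exact h2x
    have h1j : (1 : ℝ) ≤ 2 ^ j := one_le_pow₀ (by norm_num)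
    have hix : (2 : ℝ) ^ i * x ≤ 1 := by
      have h0 : (0 : ℝ) < 2 ^ i * x := by positivity
      nlinarith
    have h2 := pow_bound hx0 hx4 i hix
    rw [← hρ] at h2
    push_cast
    constructor
    · nlinarith
    · nlinarith
  refine complete_of_one ht0 hα1 (n := k) (by simpa using hval 0 (Nat.zero_le _)) fun m hm => ?_
  rcases lt_or_ge m (k + J) with h | h
  · obtain ⟨j, rfl⟩ := Nat.exists_eq_add_of_le hm
    rw [add_assoc, hval j (by omega), hval (j + 1) (by omega), pow_succ]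
    omega
  · refine step_of ht0 hα1 hα2 (n := k + J) ?_ m h
    rw [hval J le_rfl]
    push_cast
    have h3 : (2 - α) * 2 ^ J = 3 / ρ := by
      have h4 : (2 - α) = 3 * x / ρ := by
        rw [hα]
        field_simp
        rw [hρ]
        ring
      rw [h4]
      field_simp
      linarith
    rw [h3, hα]
    gcongr
    norm_num

lemma tendsto_pts (k : ℕ) : Tendsto (fun J : ℕ =>
    (((1 + 3 / 2 * (1 / 2 : ℝ) ^ J) ^ J / (2 / (1 + 3 / 2 * (1 / 2 : ℝ) ^ J)) ^ k,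
      2 / (1 + 3 / 2 * (1 / 2 : ℝ) ^ J)) : ℝ × ℝ)) atTop (𝓝 (((2 : ℝ) ^ k)⁻¹, 2)) := by
  have h0 : Tendsto (fun J : ℕ => (1 / 2 : ℝ) ^ J) atTop (𝓝 0) :=
    tendsto_pow_atTop_nhds_zero_of_lt_one (by norm_num) (by norm_num)
  have h1 : Tendsto (fun J : ℕ => 2 / (1 + 3 / 2 * (1 / 2 : ℝ) ^ J)) atTop (𝓝 2) := by
    have h2 : Tendsto (fun J : ℕ => 1 + 3 / 2 * (1 / 2 : ℝ) ^ J) atTop (𝓝 1) := by
      simpa using (h0.const_mul (3 / 2)).const_add 1
    have h3 : Tendsto (fun J : ℕ => 2 / (1 + 3 / 2 * (1 / 2 : ℝ) ^ J)) atTop (𝓝 (2 / 1)) :=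
      tendsto_const_nhds.div h2 one_ne_zero
    rwa [div_one] at h3
  have h4 : Tendsto (fun J : ℕ => (1 + 3 / 2 * (1 / 2 : ℝ) ^ J) ^ J) atTop (𝓝 1) := by
    have h5 : Tendsto (fun J : ℕ => (J : ℝ) * (1 / 2 : ℝ) ^ J) atTop (𝓝 0) :=
      tendsto_self_mul_const_pow_of_lt_one (by norm_num) (by norm_num)
    have h6 : Tendsto (fun J : ℕ => Real.exp (3 / 2 * ((J : ℝ) * (1 / 2 : ℝ) ^ J))) atTop
        (𝓝 1) := by
      have h7 := (Real.continuous_exp.tendsto _).comp (h5.const_mul (3 / 2))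
      simpa [Function.comp_def] using h7
    refine tendsto_of_tendsto_of_tendsto_of_le_of_le tendsto_const_nhds h6 (fun J => ?_)
      (fun J => ?_)
    · exact one_le_pow₀ (by
        have : (0 : ℝ) < (1 / 2 : ℝ) ^ J := by positivity
        linarith)
    · have h8 := Real.add_one_le_exp (3 / 2 * (1 / 2 : ℝ) ^ J)
      have h9 : (1 + 3 / 2 * (1 / 2 : ℝ) ^ J) ≤ Real.exp (3 / 2 * (1 / 2 : ℝ) ^ J) := by linarith
      calc (1 + 3 / 2 * (1 / 2 : ℝ) ^ J) ^ J ≤ Real.exp (3 / 2 * (1 / 2 : ℝ) ^ J) ^ J :=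
            pow_le_pow_left₀ (by positivity) h9 J
        _ = Real.exp (3 / 2 * ((J : ℝ) * (1 / 2 : ℝ) ^ J)) := by
            rw [← Real.exp_nat_mul]
            congr 1
            ring
  have h10 := h4.div (h1.pow k) (by positivity)
  have h11 : (1 : ℝ) / 2 ^ k = ((2 : ℝ) ^ k)⁻¹ := one_div _
  rw [h11] at h10
  exact h10.prodMk_nhds h1

lemma gt_one_of_complete {t α : ℝ} (ht : 0 < t) (hα : 0 < α) (hc : Complete (seqSet t α)) :
    1 < α := by
  by_contra hcon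
  rw [not_lt] at hcon
  obtain ⟨N, hN⟩ := hc
  obtain ⟨F, hF, hs⟩ := hN (max N (∑ a ∈ Finset.Icc 0 ⌊t⌋, a + 1)) (le_max_left _ _)
  have hsub : F ⊆ Finset.Icc 0 ⌊t⌋ := by
    intro a ha
    obtain ⟨n, hn⟩ := hF ha
    rw [Finset.mem_Icc, hn]
    refine ⟨Int.floor_nonneg.2 (by positivity), Int.floor_le_floor ?_⟩
    exact mul_le_of_le_one_right ht.le (pow_le_one₀ hα.le hcon)
  have h1 : ∑ a ∈ F, a ≤ ∑ a ∈ Finset.Icc 0 ⌊t⌋, a :=
    Finset.sum_le_sum_of_subset_of_nonneg hsub fun a ha _ => (Finset.mem_Icc.1 ha).1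
  have h2 := le_max_right N (∑ a ∈ Finset.Icc 0 ⌊t⌋, a + 1)
  omega

lemma le_two_of_complete {t α : ℝ} (ht : 0 < t) (hα : 1 < α) (hc : Complete (seqSet t α)) :
    α ≤ 2 := by
  classical
  by_contra hcon
  rw [not_le] at hcon
  obtain ⟨N, hN⟩ := hc
  obtain ⟨n₁, hn₁⟩ := a_large ht hα (N + 1)
  obtain ⟨n₂, hn₂⟩ := pow_unbounded_of_one_lt (2 * (α - 1) / (α - 2) / t) hα
  set n := max n₁ n₂ with hn
  have h1 := hn₁ (n + 1) ((le_max_left _ _).trans (Nat.le_succ _))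
  have h1' : N + 1 ≤ ⌊t * α ^ (n + 1)⌋ := by exact_mod_cast h1
  have h2 : 2 * (α - 1) / (α - 2) < t * α ^ (n + 1) := by
    rw [div_lt_iff₀ ht] at hn₂
    have h3 : α ^ n₂ ≤ α ^ (n + 1) :=
      pow_le_pow_right₀ hα.le ((le_max_right _ _).trans (Nat.le_succ _))
    calc _ < α ^ n₂ * t := hn₂
      _ ≤ α ^ (n + 1) * t := mul_le_mul_of_nonneg_right h3 ht.le
      _ = _ := mul_comm _ _
  obtain ⟨F, hF, hs⟩ := isSum_of_lt (n := n) (m := ⌊t * α ^ (n + 1)⌋ - 1) ht hα (by omega)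
    (hN _ (by omega))
  have h4 : ∑ a ∈ F, a ≤ ∑ k ∈ Finset.range (n + 1), ⌊t * α ^ k⌋ := by
    have hsub : F ⊆ (Finset.range (n + 1)).image fun k => ⌊t * α ^ k⌋ := by
      intro a ha
      obtain ⟨k, hk, hk2⟩ := hF a ha
      exact Finset.mem_image.2 ⟨k, Finset.mem_range.2 (by omega), hk2.symm⟩
    have hnn : ∀ a ∈ (Finset.range (n + 1)).image fun k => ⌊t * α ^ k⌋, 0 ≤ a := by
      intro a ha
      obtain ⟨k, _, hk2⟩ := Finset.mem_image.1 ha
      rw [← hk2]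
      exact a_nonneg ht hα k
    exact (Finset.sum_le_sum_of_subset_of_nonneg hsub fun a ha _ => hnn a ha).trans
      (Finset.sum_image_le_of_nonneg (f := fun a : ℤ => a) hnn)
  have h5 : ((∑ k ∈ Finset.range (n + 1), ⌊t * α ^ k⌋ : ℤ) : ℝ) ≤
      t * α ^ (n + 1) / (α - 1) := by
    push_cast
    calc ∑ k ∈ Finset.range (n + 1), ((⌊t * α ^ k⌋ : ℤ) : ℝ)
        ≤ ∑ k ∈ Finset.range (n + 1), t * α ^ k :=
          Finset.sum_le_sum fun k _ => Int.floor_le _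
      _ = t * ((α ^ (n + 1) - 1) / (α - 1)) := by
          rw [← Finset.mul_sum, geom_sum_eq (by linarith : α ≠ 1)]
      _ ≤ _ := by
          rw [mul_div_assoc]
          apply mul_le_mul_of_nonneg_left _ ht.le
          exact div_le_div_of_nonneg_right (by linarith) (by linarith)
  have h6 := Int.lt_floor_add_one (t * α ^ (n + 1))
  have h7 : ((⌊t * α ^ (n + 1)⌋ - 1 : ℤ) : ℝ) ≤ t * α ^ (n + 1) / (α - 1) := by
    rw [← hs]
    refine le_trans ?_ h5
    exact_mod_cast h4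
  push_cast at h7
  rw [le_div_iff₀ (by linarith)] at h7
  rw [div_lt_iff₀ (by linarith)] at h2
  nlinarith

/-- **The set `G` lies in the strip `1 < α ≤ 2` and in the closure of its interior.** -/
theorem closure_interior {t α : ℝ} (h : (t, α) ∈ G) :
    1 < α ∧ α ≤ 2 ∧ (t, α) ∈ closure (interior G) := by
  obtain ⟨ht, hα0, hc⟩ := h
  simp only at ht hα0 hc
  have hα := gt_one_of_complete ht hα0 hc
  have hα2 := le_two_of_complete ht hα hc
  refine ⟨hα, hα2, ?_⟩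
  rcases hα2.lt_or_eq with h | h
  · exact mem_closure_of_lt ht hα h hc
  · subst h
    obtain ⟨k, rfl⟩ := (Pool.Agent.Results.MP_0ff3a5_nt.LineTwo.result t ht).1 hc
    refine isClosed_closure.mem_of_tendsto (tendsto_pts k) ?_
    filter_upwards [eventually_ge_atTop 2] with J hJ
    obtain ⟨h1, h2, h3, h4⟩ := near_two k J hJ _ _ _ rfl rfl rfl
    exact mem_closure_of_lt h1 h2 h3 h4

end Pool.Agent.Y509.FL
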